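import Pool.Agent.W611.RO.Stms

set_option autoImplicit false

/-!
Project RO: existence of the fields `a U_g` (helper721).
-/

open scoped ComplexConjugate InnerProductSpace Topology BoundedContinuousFunction
open Filter MeasureTheory NormedSpace

namespace Pool.Agent.W721.RO
open Pool.Agent.H712R5.BO Pool.Agent.W611.RO

theorem t_WRD (hU : P_UNI) : P_WRD := by
  intro G Ω H _ _ _ _ _ _ _ b L hL hmeas g a R ha hR
  have hex : ∀ ω : Ω, ∃ X : H →L[ℂ] H, ‖X‖ ≤ max R 0 ∧
      ∀ k, X (b k) = a ((g * k⁻¹) • ω) • b (k * g⁻¹) := by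
    intro ω
    obtain ⟨X, h1, h2⟩ := (hU G H b (Equiv.mulRight g⁻¹) (fun k => a ((g * k⁻¹) • ω))).2
      (max R 0) (le_max_right _ _) (fun k => (hR _).trans (le_max_left _ _))
    exact ⟨X, h1, h2⟩
  choose X hX1 hX2 using hex
  let A : Dis Ω →ᵇ (H →L[ℂ] H) :=
    BoundedContinuousFunction.ofNormedAddCommGroupDiscrete (α := Dis Ω) X (max R 0) hX1
  have hA : ∀ ω : Ω, (A : Dis Ω → (H →L[ℂ] H)) ω = X ω := fun ω => rfl
  have hmem : A ∈ CF (Ω := Ω) b L := by
    rw [mem_CF]
    refine ⟨?_, ?_⟩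
    · intro x y
      have h1 : ∀ ω : Ω, ⟪x, (A : Dis Ω → (H →L[ℂ] H)) ω y⟫_ℂ =
          ∑' k : G, b.repr y k * (a ((g * k⁻¹) • ω) * ⟪x, b (k * g⁻¹)⟫_ℂ) := by
        intro ω
        rw [hA]
        have h2 := (b.hasSum_repr y).mapL (X ω)
        have h3 := h2.mapL (innerSL ℂ x)
        have h4 := h3.tsum_eq
        simp only [innerSL_apply_apply] at h4
        rw [← h4]
        refine tsum_congr fun k => ?_
        rw [map_smul, hX2, inner_smul_right, inner_smul_right]
      simp_rw [h1]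
      refine Measurable.tsum fun k => ?_
      exact ((ha.comp (hmeas (g * k⁻¹))).mul_const _).const_mul _
    · intro h ω
      rw [hA, hA]
      refine ContinuousLinearMap.ext_on (s := Set.range b) ?_ ?_
      · exact (Submodule.dense_iff_topologicalClosure_eq_top.mpr b.dense_span)
      · rintro _ ⟨k, rfl⟩
        change X (h • ω) ((L h : H →L[ℂ] H) (b k)) = (L h : H →L[ℂ] H) (X ω (b k))
        rw [hL h k, hX2, hX2, map_smul, hL]
        congr 1
        · congr 1
          rw [smul_smul]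
          congr 1
          group
        · rw [mul_assoc]
  exact ⟨⟨A, hmem⟩, fun ω k => hX2 ω k⟩

end Pool.Agent.W721.RO
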