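import Pool.Agent.W611.RO.Stms

set_option autoImplicit false

/-!
Project RO: the theorem on the space of square summable functions on the group (helper721).
-/

open scoped ComplexConjugate InnerProductSpace Topology BoundedContinuousFunction
open Filter MeasureTheory NormedSpace

namespace Pool.Agent.W721.RO
open Pool.Agent.H712R5.BO Pool.Agent.W611.RO

theorem t_FIN (h : P_MAINB) : P_FIN := by
  classical
  intro G Ω _ _ _ _ P _ hE χ hχ F a g₀ R hm hb hg₀ hpos hmax hne hlog T hT
  let b : HilbertBasis G ℂ (lp (fun _ : G => ℂ) 2) :=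
    HilbertBasis.ofRepr (LinearIsometryEquiv.refl ℂ (lp (fun _ : G => ℂ) 2))
  have hbk : ∀ k, b k = lp.single 2 k (1 : ℂ) := by
    intro k
    have h1 := b.repr_self k
    exact h1
  refine h G Ω (lp (fun _ : G => ℂ) 2) P b hE χ hχ F a g₀ R hm hb hg₀ hpos hmax hne hlog T ?_
  intro ω k
  apply lp.ext
  funext i
  rw [hT, hbk]
  have h2 : ((∑ g ∈ F, a g ((g * k⁻¹) • ω) • b (k * g⁻¹) : lp (fun _ : G => ℂ) 2) : G → ℂ) i =
      ∑ g ∈ F, a g ((g * k⁻¹) • ω) * (b (k * g⁻¹) : G → ℂ) i := by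
    rw [lp.coeFn_sum, Finset.sum_apply]
    rfl
  rw [h2]
  refine Finset.sum_congr rfl fun g _ => ?_
  rw [hbk]
  simp only [lp.coeFn_single]
  by_cases hi : i * g = k
  · have hi' : i = k * g⁻¹ := by rw [← hi]; group
    subst hi'
    have e1 : k * g⁻¹ * g = k := by group
    have e2 : (k * g⁻¹)⁻¹ = g * k⁻¹ := by group
    rw [e1, e2, Pi.single_eq_same, Pi.single_eq_same]
  · have hi' : i ≠ k * g⁻¹ := by
      rintro rfl
      apply hi
      group
    rw [Pi.single_eq_of_ne hi, Pi.single_eq_of_ne hi', mul_zero, mul_zero]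

end Pool.Agent.W721.RO
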